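import Pool.Agent.helper5.SYM.SpecA

/-!
# Row sy:FAD (MP_45d809_mp): additivity
-/

set_option autoImplicit false

namespace Pool.Agent.SYM

open Finset CT Polynomial

theorem FAD_jv {D : Type} [DecidableEq D] (e : D → D) (α β : D → ZMod 2) (x y : D) :
    jv e (fun d => α d + β d) x y 0 = fun d => jv e α x y 0 d + jv e β x y 0 d := by
  funext z
  unfold jv
  split_ifs <;> ring

theorem FAD_smv {W : Type} [DecidableEq W] (e : W × Fin 4 → W × Fin 4) (α β : W × Fin 4 → ZMod 2)
    (u : W) (t : Fin 3) :
    smv e (fun d => α d + β d) u t = fun d => smv e α u t d + smv e β u t d := by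
  unfold smv
  rw [FAD_jv, FAD_jv]

theorem FAD_vl {W : Type} [DecidableEq W] (e : W × Fin 4 → W × Fin 4) (α β : W × Fin 4 → ZMod 2)
    (u : W) (t : Fin 3) :
    vl e (fun d => α d + β d) u t = vl e α u t + vl e β u t := by
  unfold vl
  rw [FAD_jv]
  split_ifs <;> ring

theorem FAD : FAD_stmt := by
  intro W _ L
  induction L with
  | nil =>
    intro e α β
    simp only [F1, add_zero]
  | cons u L ih =>
    intro e α β
    simp only [F1]
    rw [← Finset.sum_add_distrib]
    refine Finset.sum_congr rfl fun t _ => ?_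
    rw [FAD_smv, FAD_vl, ih]
    split_ifs <;> ring

end Pool.Agent.SYM
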