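import Pool.Agent.helper5.SYM.SpecB

/-!
# Row sy:NB1 (MP_45d809_mp): representatives for an involution
-/

set_option autoImplicit false

namespace Pool.Agent.SYM

open Finset CT Polynomial

theorem NB1_fin4 : ∀ s : Fin 4 → Fin 4, (∀ x, s (s x) = x) → ∃ f : Fin 4 → Fin 4,
    (∀ y, ∃ x, f x = y) ∧ ((∀ x, s x ≠ x) → s (f 0) = f 2 ∧ s (f 1) = f 3) ∧
    ((∃ x, s x = x) → (∃ x, s x ≠ x) → s (f 0) ≠ f 0 ∧ ∀ x, s x ≠ x → x = f 0 ∨ x = s (f 0)) := by
  decide +kernel

section

variable {V : Type} {G : SimpleGraph V}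

theorem NB1_card (hG : FourRegular G) (v : V) : Nat.card {d : G.Dart // d.fst = v} = 4 := by
  rw [← hG v]
  refine Nat.card_congr ⟨fun d => ⟨d.1.snd, by have h := d.1.adj; rwa [d.2] at h⟩, fun w => ⟨⟨(v, w.1), w.2⟩, rfl⟩, ?_, ?_⟩
  · rintro ⟨⟨⟨a, b⟩, h⟩, h2⟩
    simp only at h2
    subst h2
    rfl
  · rintro ⟨w, hw⟩
    rfl

theorem NB1_sd2 (σ : G ≃g G) (hσ : ∀ v, σ (σ v) = v) (d : G.Dart) : sd σ (sd σ d) = d := by
  apply SimpleGraph.Dart.ext
  unfold sd
  simp only [hσ]

theorem NB1_loc (hG : FourRegular G) (σ : G ≃g G) (hσ : ∀ v, σ (σ v) = v) (v : V) :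
    ∃ f : Fin 4 → G.Dart, (∀ i, (f i).fst = v) ∧ Function.Injective f ∧
      (∀ d : G.Dart, d.fst = v → ∃ i, d = f i) ∧
      (σ v = v → (∀ d : G.Dart, d.fst = v → sd σ d ≠ d) → sd σ (f 0) = f 2 ∧ sd σ (f 1) = f 3) ∧
      (σ v = v → (∃ d : G.Dart, d.fst = v ∧ sd σ d = d) → (∃ d : G.Dart, d.fst = v ∧ sd σ d ≠ d) →
        sd σ (f 0) ≠ f 0 ∧ ∀ d : G.Dart, d.fst = v → sd σ d ≠ d → d = f 0 ∨ d = sd σ (f 0)) := by
  have : Finite {d : G.Dart // d.fst = v} := Nat.finite_of_card_ne_zero (by rw [NB1_card hG v]; norm_num)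
  let e : {d : G.Dart // d.fst = v} ≃ Fin 4 := Finite.equivFinOfCardEq (NB1_card hG v)
  by_cases hv : σ v = v
  · have hs0 : ∀ d : {d : G.Dart // d.fst = v}, (sd σ d.1).fst = v := by
      intro d
      have h1 : (sd σ d.1).fst = σ d.1.fst := rfl
      rw [h1, d.2, hv]
    let s : Fin 4 → Fin 4 := fun i => e ⟨sd σ (e.symm i).1, hs0 _⟩
    have hs : ∀ x, s (s x) = x := by
      intro x
      have h1 : (e.symm (s x)).1 = sd σ (e.symm x).1 := by
        show (e.symm (e ⟨sd σ (e.symm x).1, hs0 _⟩)).1 = _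
        rw [Equiv.symm_apply_apply]
      have h2 : (⟨sd σ (e.symm (s x)).1, hs0 _⟩ : {d : G.Dart // d.fst = v}) = e.symm x := by
        apply Subtype.ext
        show sd σ (e.symm (s x)).1 = (e.symm x).1
        rw [h1, NB1_sd2 σ hσ]
      show e ⟨sd σ (e.symm (s x)).1, hs0 _⟩ = x
      rw [h2, Equiv.apply_symm_apply]
    have hse : ∀ x, (e.symm (s x)).1 = sd σ (e.symm x).1 := by
      intro x
      show (e.symm (e ⟨sd σ (e.symm x).1, hs0 _⟩)).1 = _
      rw [Equiv.symm_apply_apply]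
    have hfix : ∀ x, s x = x ↔ sd σ (e.symm x).1 = (e.symm x).1 := by
      intro x
      rw [← hse]
      constructor
      · intro h
        rw [h]
      · intro h
        exact e.symm.injective (Subtype.ext h)
    obtain ⟨f, hf1, hf2, hf3⟩ := NB1_fin4 s hs
    have hfi : Function.Injective f := Finite.injective_iff_surjective.2 hf1
    refine ⟨fun i => (e.symm (f i)).1, fun i => (e.symm (f i)).2, ?_, ?_, ?_, ?_⟩
    · intro i j hij
      exact hfi (e.symm.injective (Subtype.ext hij))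
    · intro d hd
      obtain ⟨i, hi⟩ := hf1 (e ⟨d, hd⟩)
      refine ⟨i, ?_⟩
      show d = (e.symm (f i)).1
      rw [hi, Equiv.symm_apply_apply]
    · intro _ h
      have h1 : ∀ x, s x ≠ x := by
        intro x hx
        exact h _ (e.symm x).2 ((hfix x).1 hx)
      obtain ⟨h2, h3⟩ := hf2 h1
      refine ⟨?_, ?_⟩
      · show sd σ (e.symm (f 0)).1 = (e.symm (f 2)).1
        rw [← hse, h2]
      · show sd σ (e.symm (f 1)).1 = (e.symm (f 3)).1
        rw [← hse, h3]
    · rintro _ ⟨d1, hd1, hd1'⟩ ⟨d2, hd2, hd2'⟩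
      have h1 : ∃ x, s x = x := by
        refine ⟨e ⟨d1, hd1⟩, ?_⟩
        rw [hfix, Equiv.symm_apply_apply]
        exact hd1'
      have h2 : ∃ x, s x ≠ x := by
        refine ⟨e ⟨d2, hd2⟩, ?_⟩
        rw [Ne, hfix, Equiv.symm_apply_apply]
        exact hd2'
      obtain ⟨h3, h4⟩ := hf3 h1 h2
      refine ⟨?_, ?_⟩
      · show sd σ (e.symm (f 0)).1 ≠ (e.symm (f 0)).1
        rwa [Ne, ← hfix]
      · intro d hd hd'
        have h5 : s (e ⟨d, hd⟩) ≠ e ⟨d, hd⟩ := by
          rw [Ne, hfix, Equiv.symm_apply_apply]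
          exact hd'
        rcases h4 _ h5 with h6 | h6
        · left
          show d = (e.symm (f 0)).1
          rw [← h6, Equiv.symm_apply_apply]
        · right
          show d = sd σ (e.symm (f 0)).1
          rw [← hse, ← h6, Equiv.symm_apply_apply]
  · refine ⟨fun i => (e.symm i).1, fun i => (e.symm i).2, ?_, ?_, fun h => absurd h hv, fun h => absurd h hv⟩
    · intro i j hij
      exact e.symm.injective (Subtype.ext hij)
    · intro d hd
      refine ⟨e ⟨d, hd⟩, ?_⟩
      show d = (e.symm (e ⟨d, hd⟩)).1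
      rw [Equiv.symm_apply_apply]

end


theorem NB1_th0 {V : Type} {G : SimpleGraph V} (σ : G ≃g G) (v : V) : th σ 0 v = v := by
  unfold th
  rw [if_pos rfl]
  rfl

theorem NB1_th1 {V : Type} {G : SimpleGraph V} (σ : G ≃g G) {a : ZMod 2} (ha : a ≠ 0) : th σ a = σ := by
  unfold th
  rw [if_neg ha]

theorem NB1_sd0 {V : Type} {G : SimpleGraph V} (σ : G ≃g G) (d : G.Dart) : sd (th σ 0) d = d := by
  apply SimpleGraph.Dart.ext
  unfold sd
  simp only [NB1_th0]

theorem NB1_Yf {V : Type} {G : SimpleGraph V} (σ : G ≃g G) (d : G.Dart) : Yf (th σ) d ↔ sd σ d ≠ d := by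
  constructor
  · intro h h1
    exact one_ne_zero (h 1 (by rw [NB1_th1 σ one_ne_zero]; exact h1))
  · intro h a ha
    by_contra h0
    rw [NB1_th1 σ h0] at ha
    exact h ha

theorem NB1 : NB1_stmt := by
  classical
  intro V _ _ G σ hG hI
  obtain ⟨hσ, v0, hv0⟩ := hI
  choose f hf1 hf2 hf3 hf4 hf5 using NB1_loc hG σ hσ
  obtain ⟨g, hg⟩ : ∃ g : V → ℕ, Function.Injective g :=
    ⟨fun v => (Fintype.equivFin V v : ℕ), fun a b hab => (Fintype.equivFin V).injective (Fin.ext hab)⟩
  have hsdf : ∀ d : G.Dart, (sd σ d).fst = σ d.fst := fun d => rfl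
  obtain ⟨R, hR⟩ : ∃ R : Finset V, ∀ v, v ∈ R ↔ g v < g (σ v) :=
    ⟨univ.filter (fun v => g v < g (σ v)), fun v => by simp⟩
  obtain ⟨J, hJ⟩ : ∃ J : Finset V, ∀ v, v ∈ J ↔ σ v = v ∧ ∀ d : G.Dart, d.fst = v → sd σ d ≠ d :=
    ⟨univ.filter (fun v => σ v = v ∧ ∀ d : G.Dart, d.fst = v → sd σ d ≠ d), fun v => by simp⟩
  obtain ⟨K, hK⟩ : ∃ K : Finset V, ∀ v, v ∈ K ↔ σ v = v ∧ (∃ d : G.Dart, d.fst = v ∧ sd σ d = d) ∧
      ∃ d : G.Dart, d.fst = v ∧ sd σ d ≠ d :=
    ⟨univ.filter (fun v => σ v = v ∧ (∃ d : G.Dart, d.fst = v ∧ sd σ d = d) ∧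
      ∃ d : G.Dart, d.fst = v ∧ sd σ d ≠ d), fun v => by simp⟩
  have hRne : ∀ r ∈ R, σ r ≠ r := by
    intro r hr h
    rw [hR, h] at hr
    exact lt_irrefl _ hr
  have hRnot : ∀ r ∈ R, σ r ∉ R := by
    intro r hr h
    rw [hR] at hr h
    rw [hσ] at h
    omega
  have hJK : ∀ v ∈ J ∪ K, σ v = v := by
    intro v hv
    rw [mem_union] at hv
    rcases hv with hv | hv
    · exact ((hJ v).1 hv).1
    · exact ((hK v).1 hv).1
  have hmem : ∀ v, v ∈ R ∪ J ∪ K ↔ v ∈ R ∨ v ∈ J ∪ K := by
    intro v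
    simp only [mem_union]
    tauto
  have huni1 : ∀ r ∈ R ∪ J ∪ K, ∀ r' ∈ R ∪ J ∪ K, σ r = r' → r = r' ∧ r ∈ J ∪ K := by
    intro r hr r' hr' h
    rw [hmem] at hr hr'
    rcases hr with hr | hr
    · exfalso
      rcases hr' with hr' | hr'
      · rw [← h] at hr'
        exact hRnot r hr hr'
      · have h1 := hJK r' hr'
        rw [← h, hσ] at h1
        exact hRne r hr h1.symm
    · refine ⟨?_, hr⟩
      rw [← h, hJK r hr]
  have hXX1 : ∀ x ∈ XX R J K, x.1 ∈ R ∪ J ∪ K := by
    intro x hx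
    unfold XX at hx
    rw [mem_union, mem_union, mem_product, mem_product, mem_product] at hx
    rw [mem_union, mem_union]
    tauto
  have hXXJ : ∀ x ∈ XX R J K, x.1 ∈ J → x.2 = 0 ∨ x.2 = 1 := by
    intro x hx hxJ
    unfold XX at hx
    rw [mem_union, mem_union, mem_product, mem_product, mem_product] at hx
    rcases hx with (hx | hx) | hx
    · exact absurd ((hJ _).1 hxJ).1 (hRne _ hx.1)
    · have h1 := hx.2
      rw [mem_insert, mem_singleton] at h1
      exact h1
    · have h1 := hx.2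
      rw [mem_singleton] at h1
      exact Or.inl h1
  have hXXK : ∀ x ∈ XX R J K, x.1 ∈ K → x.2 = 0 := by
    intro x hx hxK
    unfold XX at hx
    rw [mem_union, mem_union, mem_product, mem_product, mem_product] at hx
    rcases hx with (hx | hx) | hx
    · exact absurd ((hK _).1 hxK).1 (hRne _ hx.1)
    · obtain ⟨d, hd1, hd2⟩ := ((hK _).1 hxK).2.1
      exact absurd hd2 (((hJ _).1 hx.1).2 d hd1)
    · have h1 := hx.2
      rw [mem_singleton] at h1
      exact h1
  have hK2 : ∀ k ∈ K, sd σ (f k 0) ≠ f k 0 ∧ ∀ d : G.Dart, d.fst = k → sd σ d ≠ d →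
      d = f k 0 ∨ d = sd σ (f k 0) := by
    intro k hk
    obtain ⟨h1, h2, h3⟩ := (hK k).1 hk
    exact hf5 k h1 h2 h3
  refine ⟨R, J, K, fun x => f x.1 x.2, ?_, hJ, hK, ?_, ?_⟩
  · refine ⟨?_, NB1_th0 σ, ?_, ?_, ?_, ?_, ?_, ?_, ?_, ?_, ?_, ?_, ?_, ?_, ?_⟩
    · -- hom
      intro a b v
      by_cases ha : a = 0
      · rw [ha, zero_add, NB1_th0]
      · by_cases hb : b = 0
        · rw [hb, add_zero, NB1_th0]
        · have hab : a + b = 0 := by
            revert a b
            decide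
          rw [hab, NB1_th0, NB1_th1 σ ha, NB1_th1 σ hb, hσ]
    · rw [Finset.disjoint_left]
      intro v hv hv'
      exact hRne v hv ((hJ v).1 hv').1
    · rw [Finset.disjoint_left]
      intro v hv hv'
      exact hRne v hv ((hK v).1 hv').1
    · rw [Finset.disjoint_left]
      intro v hv hv'
      obtain ⟨d, hd1, hd2⟩ := ((hK v).1 hv').2.1
      exact ((hJ v).1 hv).2 d hd1 hd2
    · -- cov
      intro d hd
      rw [NB1_Yf] at hd
      by_cases h1 : σ d.fst = d.fst
      · by_cases h2 : ∃ d' : G.Dart, d'.fst = d.fst ∧ sd σ d' = d'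
        · refine ⟨d.fst, ?_, 0, NB1_th0 σ _⟩
          rw [mem_union, hK]
          exact Or.inr ⟨h1, h2, d, rfl, hd⟩
        · refine ⟨d.fst, ?_, 0, NB1_th0 σ _⟩
          rw [mem_union, mem_union, hJ]
          refine Or.inl (Or.inr ⟨h1, fun d' hd' h3 => h2 ⟨d', hd', h3⟩⟩)
      · rcases lt_or_gt_of_ne (fun h => h1 (hg h).symm : g d.fst ≠ g (σ d.fst)) with h2 | h2
        · refine ⟨d.fst, ?_, 0, NB1_th0 σ _⟩
          rw [mem_union, mem_union, hR]
          exact Or.inl (Or.inl h2)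
        · refine ⟨σ d.fst, ?_, 1, ?_⟩
          · rw [mem_union, mem_union, hR, hσ]
            exact Or.inl (Or.inl h2)
          · rw [NB1_th1 σ one_ne_zero, hσ]
    · -- uni
      intro r hr r' hr' a h
      by_cases ha : a = 0
      · rw [ha, NB1_th0] at h
        exact h
      · rw [NB1_th1 σ ha] at h
        exact (huni1 r hr r' hr' h).1
    · -- Rst
      intro r hr a h
      by_contra ha
      rw [NB1_th1 σ ha] at h
      exact hRne r hr h
    · -- Jst
      intro j hj
      refine ⟨⟨one_ne_zero, by decide⟩, ?_⟩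
      intro a
      constructor
      · intro _
        have h1 : ∀ a : ZMod 2, a = 0 ∨ a = 1 := by decide
        exact h1 a
      · intro _
        by_cases ha : a = 0
        · rw [ha, NB1_th0]
        · rw [NB1_th1 σ ha]
          exact ((hJ j).1 hj).1
    · -- Kst
      intro k hk a
      by_cases ha : a = 0
      · rw [ha, NB1_th0]
      · rw [NB1_th1 σ ha]
        exact ((hK k).1 hk).1
    · -- fst
      intro x hx
      refine ⟨hf1 _ _, ?_⟩
      rw [NB1_Yf]
      have h1 := hXX1 x hx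
      rw [mem_union, mem_union] at h1
      rcases h1 with (h1 | h1) | h1
      · intro h2
        have h3 := congrArg (fun d : G.Dart => d.fst) h2
        simp only [hsdf, hf1] at h3
        exact hRne _ h1 h3
      · exact ((hJ _).1 h1).2 _ (hf1 _ _)
      · have h2 := (hK2 _ h1).1
        show sd σ (f x.1 x.2) ≠ f x.1 x.2
        rw [hXXK x hx h1]
        exact h2
    · -- Rd
      intro r _ d hd
      exact hf3 r d hd
    · -- Jd
      intro j hj d hd
      obtain ⟨h1, h2⟩ := (hJ j).1 hj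
      obtain ⟨h3, h4⟩ := hf4 j h1 h2
      obtain ⟨i, hi⟩ := hf3 j d hd
      rw [NB1_th1 σ one_ne_zero]
      show d = f j 0 ∨ d = sd σ (f j 0) ∨ d = f j 1 ∨ d = sd σ (f j 1)
      rw [h3, h4, hi]
      fin_cases i
      · exact Or.inl rfl
      · exact Or.inr (Or.inr (Or.inl rfl))
      · exact Or.inr (Or.inl rfl)
      · exact Or.inr (Or.inr (Or.inr rfl))
    · -- Kd
      intro k hk d hd hYd
      rw [NB1_Yf] at hYd
      rcases (hK2 k hk).2 d hd hYd with h1 | h1
      · exact ⟨0, by rw [NB1_sd0]; exact h1⟩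
      · exact ⟨1, by rw [NB1_th1 σ one_ne_zero]; exact h1⟩
    · -- inj
      intro x hx y hy a h
      have h' : sd (th σ a) (f x.1 x.2) = f y.1 y.2 := h
      by_cases ha : a = 0
      · rw [ha, NB1_sd0] at h'
        have h1 := congrArg (fun d : G.Dart => d.fst) h'
        simp only [hf1] at h1
        refine ⟨?_, ha⟩
        rw [← h1] at h'
        exact Prod.ext h1 (hf2 _ h')
      · exfalso
        rw [NB1_th1 σ ha] at h'
        have h1 := congrArg (fun d : G.Dart => d.fst) h'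
        simp only [hsdf, hf1] at h1
        obtain ⟨h2, h3⟩ := huni1 _ (hXX1 x hx) _ (hXX1 y hy) h1
        rw [mem_union] at h3
        rcases h3 with h3 | h3
        · obtain ⟨h4, h5⟩ := hf4 x.1 ((hJ _).1 h3).1 ((hJ _).1 h3).2
          rw [← h2] at h'
          have hy1 : y.1 ∈ J := h2 ▸ h3
          rcases hXXJ x hx h3 with h6 | h6
          · rw [h6, h4] at h'
            have h7 := hf2 _ h'
            rcases hXXJ y hy hy1 with h8 | h8
            · rw [h8] at h7
              exact absurd h7 (by decide)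
            · rw [h8] at h7
              exact absurd h7 (by decide)
          · rw [h6, h5] at h'
            have h7 := hf2 _ h'
            rcases hXXJ y hy hy1 with h8 | h8
            · rw [h8] at h7
              exact absurd h7 (by decide)
            · rw [h8] at h7
              exact absurd h7 (by decide)
        · have hy1 : y.1 ∈ K := h2 ▸ h3
          rw [← h2, hXXK x hx h3, hXXK y hy hy1] at h'
          exact (hK2 _ h3).1 h'
  · -- the number of vertices
    have h1 : (R.image σ).card = R.card := Finset.card_image_of_injective _ σ.injective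
    have h2 : nfx σ = (univ.filter fun v => σ v = v).card := by
      unfold nfx
      rw [Nat.card_eq_fintype_card, Fintype.card_subtype]
    have h3 : (univ : Finset V) = R ∪ R.image σ ∪ univ.filter fun v => σ v = v := by
      ext v
      simp only [mem_univ, mem_union, mem_image, mem_filter, true_and, true_iff]
      by_cases h : σ v = v
      · exact Or.inr h
      · left
        rcases lt_or_gt_of_ne (fun h' => h (hg h').symm : g v ≠ g (σ v)) with h4 | h4
        · exact Or.inl ((hR v).2 h4)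
        · refine Or.inr ⟨σ v, (hR _).2 ?_, hσ v⟩
          rw [hσ]
          exact h4
    have h4 : Disjoint R (R.image σ) := by
      rw [Finset.disjoint_left]
      intro v hv hv'
      rw [mem_image] at hv'
      obtain ⟨w, hw, rfl⟩ := hv'
      exact hRnot w hw hv
    have h5 : Disjoint (R ∪ R.image σ) (univ.filter fun v => σ v = v) := by
      rw [Finset.disjoint_left]
      intro v hv hv'
      rw [mem_filter] at hv'
      rw [mem_union, mem_image] at hv
      rcases hv with hv | ⟨w, hw, rfl⟩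
      · exact hRne v hv hv'.2
      · have h6 := hv'.2
        rw [hσ] at h6
        exact hRne w hw h6.symm
    rw [← Finset.card_univ, h2]
    conv_rhs => rw [h3]
    rw [Finset.card_union_of_disjoint h5, Finset.card_union_of_disjoint h4, h1]
    omega
  · rw [Nat.succ_le_iff, Finset.card_pos]
    rcases lt_or_gt_of_ne (fun h' => hv0 (hg h').symm : g v0 ≠ g (σ v0)) with h4 | h4
    · exact ⟨v0, (hR _).2 h4⟩
    · refine ⟨σ v0, (hR _).2 ?_⟩
      rw [hσ]
      exact h4

end Pool.Agent.SYM
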